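import Pool.Agent.W_4f2e6f_h25.T1.Fin

set_option autoImplicit false

/-!
MP_4f2e6f_co: sums of consecutive differences of the Ramsey numbers `R(3, s)`.

(1) For every `K ≥ 1`, any `K` consecutive differences sum to at least `R(3, K + 1) + K`, from an
explicit point on (one more than in the inequality of Xu, Xie and Radziszowski).
(2) One, two, ..., six consecutive differences sum to at least `4`, `8`, `13`, `18`, `23` and `29`
everywhere, so `K` of them to at least `⌊29 K / 6⌋`, minus `1` unless `K ≡ 0, 1` modulo `6`.

Proof.  A maximal triangle-free graph `G` without independent sets of size `t` contains a 4-cycle, or it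
has no 4-cycle and contains a claw.  For (2) these four vertices are replaced by 8, 17, 22, 27 or 33
vertices, at the cost of 1, 3, 4, 5 or 6 in the independence number.  For (1) take an edge-minimal
extremal graph `H` for `R(3, K + 1)` and an edge `uv` of it; deleting it gives an independent set of size
`K + 1` through `u` and `v`.  In the disjoint union of `G` and `H` the four vertices of `G` and the edge
`uv` are replaced by eight vertices, and for `K - 1` pairs of vertices at distance four (one in `G`, one
in `H`) an edge and a vertex are added; the independence number does not increase.  The replacements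
were found with a SAT solver; that they work is checked here by the kernel (a branching search over
their independent sets).
-/

namespace Pool.Agent.Results.MP_4f2e6f_co.AllWindows

/-- Here `R t` is the Ramsey number `R(3,t)`, and the window from `s` to `s + k` consists of `K = k + 1`
differences.  First: for `s ≥ 2 K ^ 2 + 21` the window is at least `R(3, K + 1) + K`.  Second: for
`s ≥ 5` it is at least `⌊29 K / 6⌋`, up to `1` unless `K` is `0` or `1` modulo `6`. -/
theorem result (R : ℕ → ℕ)
    (hR : ∀ t : ℕ, R t = sInf {n : ℕ | ∀ G : SimpleGraph (Fin n),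
      ¬ G.CliqueFree 3 ∨ ¬ Gᶜ.CliqueFree t}) :
    (∀ s k : ℕ, 2 * (k + 1) ^ 2 + 21 ≤ s →
      (R (k + 2) : ℤ) + ((k : ℤ) + 1) ≤ (R (s + k) : ℤ) - (R (s - 1) : ℤ)) ∧
    (∀ s k : ℕ, 5 ≤ s →
      29 * ((k : ℤ) + 1) / 6 - (if (k + 1) % 6 ≤ 1 then 0 else 1) ≤
        (R (s + k) : ℤ) - (R (s - 1) : ℤ)) := by
  constructor
  · intro s k hs
    have h := Pool.Agent.W_4f2e6f_h25.t1 R hR (k + 1) (s - 1) (by omega) (by omega)
    have e : s - 1 + (k + 1) = s + k := by omega
    have e2 : k + 1 + 1 = k + 2 := rfl
    rw [e, e2] at h
    omega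
  · intro s k hs
    have h := Pool.Agent.W_4f2e6f_h25.windows R hR (s - 1) (by omega) (k + 1)
    have e : s - 1 + (k + 1) = s + k := by omega
    rw [e] at h
    split_ifs at h ⊢ with h1
    · omega
    · have h2 : 1 ≤ k := by omega
      omega

/-- the weaker bound `4 (k + 1)` -/
theorem windows_four (R : ℕ → ℕ)
    (hR : ∀ t : ℕ, R t = sInf {n : ℕ | ∀ G : SimpleGraph (Fin n),
      ¬ G.CliqueFree 3 ∨ ¬ Gᶜ.CliqueFree t})
    (s k : ℕ) (hs : 5 ≤ s) :
    4 * ((k : ℤ) + 1) ≤ (R (s + k) : ℤ) - (R (s - 1) : ℤ) := by
  refine le_trans ?_ ((result R hR).2 s k hs)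
  split_ifs with h1
  · omega
  · have h2 : 1 ≤ k := by omega
    omega

end Pool.Agent.Results.MP_4f2e6f_co.AllWindows
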